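import Mathlib

namespace Pool.Agent.Results.MP_26672a_co.Counter
open Finset

/-- Number of positions of `w` holding the symbol `x`; the letter `a : Fin r` is the symbol `a + 1`. -/
def cnt {r n : ℕ} (x : ℕ) (w : Fin n → Fin r) : ℕ := (univ.filter fun i => (w i : ℕ) + 1 = x).card

/-- Deletion shadow of a family of words of length `n + 1`. -/
def shadow {r n : ℕ} (F : Finset (Fin (n + 1) → Fin r)) : Finset (Fin n → Fin r) :=
  univ.filter fun u => ∃ w ∈ F, ∃ i, u = Fin.removeNth i w

/-- The family `F_(s,k,l)` inside `[r]^n`. -/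
def fam (r n s k l : ℕ) : Finset (Fin n → Fin r) :=
  univ.filter fun w => (∀ i, (w i : ℕ) + 1 ≤ s) ∧ (cnt s w ≤ k ∨ cnt s w = k + 1 ∧ cnt (s - 1) w ≤ l)

theorem result : ∃ G : Finset (Fin 4 → Fin 3), G.card = (fam 3 4 3 0 1).card ∧
    (shadow G).card < (shadow (fam 3 4 3 0 1)).card :=
  ⟨univ.filter fun w => Nat.testBit 2377720306144139865358823 (27 * w 0 + 9 * w 1 + 3 * w 2 + w 3),
    by decide +kernel⟩

end Pool.Agent.Results.MP_26672a_co.Counter
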